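import Mathlib

set_option autoImplicit false

namespace Pool.Agent.H372

open Module

/-- powers of an endomorphism of finite order: the traces are the power sums of a multiset of
roots of unity -/
theorem trace_pow_sum {V : Type} [AddCommGroup V] [Module ℂ V] [FiniteDimensional ℂ V]
    (f : Module.End ℂ V) (n : ℕ) (hn : 0 < n) (hf : f ^ n = 1) :
    ∃ (S : Finset ℂ) (d : ℂ → ℕ), (∀ μ ∈ S, μ ^ n = 1) ∧
      ∀ k : ℕ, LinearMap.trace ℂ V (f ^ k) = ∑ μ ∈ S, (d μ : ℂ) * μ ^ k := by
  classical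
  have hss : f.IsSemisimple := by
    have hsq : Squarefree (Polynomial.X ^ n - 1 : Polynomial ℂ) := by
      apply Polynomial.Separable.squarefree
      have := Polynomial.separable_X_pow_sub_C (1 : ℂ) (n := n) (by exact_mod_cast hn.ne') one_ne_zero
      simpa using this
    refine Module.End.isSemisimple_of_squarefree_aeval_eq_zero hsq ?_
    simp [hf]
  have heig : ∀ μ, f.maxGenEigenspace μ = f.eigenspace μ := fun μ =>
    hss.isFinitelySemisimple.maxGenEigenspace_eq_eigenspace μ
  have htop : ⨆ μ : ℂ, f.eigenspace μ = ⊤ := by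
    have := Module.End.iSup_maxGenEigenspace_eq_top f
    simpa [heig] using this
  have hint : DirectSum.IsInternal (fun μ : ℂ => f.eigenspace μ) := by
    rw [DirectSum.isInternal_submodule_iff_iSupIndep_and_iSup_eq_top]
    exact ⟨f.eigenspaces_iSupIndep, htop⟩
  have hfin : {μ : ℂ | f.eigenspace μ ≠ ⊥}.Finite :=
    WellFoundedGT.finite_ne_bot_of_iSupIndep f.eigenspaces_iSupIndep
  refine ⟨hfin.toFinset, fun μ => finrank ℂ (f.eigenspace μ), ?_, ?_⟩
  · intro μ hμ
    rw [Set.Finite.mem_toFinset, Set.mem_ofPred_eq, Submodule.ne_bot_iff] at hμ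
    obtain ⟨v, hv, hv0⟩ := hμ
    have hv' : f.HasEigenvector μ v := ⟨hv, hv0⟩
    have h1 := hv'.pow_apply n
    rw [hf, Module.End.one_apply] at h1
    have h2 : (1 - μ ^ n) • v = 0 := by rw [sub_smul, one_smul, ← h1, sub_self]
    rcases smul_eq_zero.1 h2 with h | h
    · exact (sub_eq_zero.1 h).symm
    · exact absurd h hv0
  · intro k
    have hmaps : ∀ μ : ℂ, Set.MapsTo (f ^ k) (f.eigenspace μ) (f.eigenspace μ) := by
      intro μ v hv
      have hv2 : f v = μ • v := Module.End.mem_eigenspace_iff.1 hv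
      rw [SetLike.mem_coe, Module.End.mem_eigenspace_iff]
      rw [← Module.End.mul_apply, ← pow_succ', pow_succ, Module.End.mul_apply, hv2, map_smul]
    rw [LinearMap.trace_eq_sum_trace_restrict' hint hfin hmaps]
    refine Finset.sum_congr rfl fun μ _ => ?_
    have h1 : (f ^ k).restrict (hmaps μ) = μ ^ k • LinearMap.id := by
      ext ⟨v, hv⟩
      have hv2 : f v = μ • v := Module.End.mem_eigenspace_iff.1 hv
      have h3 : ∀ j : ℕ, (f ^ j) v = μ ^ j • v := by
        intro j
        induction j with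
        | zero => simp
        | succ j ih => rw [pow_succ', Module.End.mul_apply, ih, map_smul, hv2, smul_smul, ← pow_succ]
      exact h3 k
    rw [h1, map_smul, LinearMap.trace_id, smul_eq_mul, mul_comm]

/-- A scalar commuting with an irreducible representation. -/
theorem schur_scalar {G : Type} [Group G] {V : Type} [AddCommGroup V] [Module ℂ V]
    [FiniteDimensional ℂ V] [Nontrivial V] (ρ : Representation ℂ G V)
    (hρ : ∀ W : Submodule ℂ V, (∀ g, ∀ w ∈ W, ρ g w ∈ W) → W ≠ ⊥ → W = ⊤)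
    (T : Module.End ℂ V) (hT : ∀ g, ρ g * T = T * ρ g) : ∃ c : ℂ, T = c • 1 := by
  obtain ⟨c, hc⟩ := Module.End.exists_eigenvalue T
  refine ⟨c, ?_⟩
  have h1 : T.eigenspace c = ⊤ := by
    apply hρ
    · intro g w hw
      rw [Module.End.mem_eigenspace_iff] at hw ⊢
      rw [← Module.End.mul_apply, ← hT, Module.End.mul_apply, hw, map_smul]
    · exact hc
  ext v
  have : v ∈ T.eigenspace c := by rw [h1]; trivial
  rw [Module.End.mem_eigenspace_iff] at this
  simpa using this

/-- The ring of algebraic integers maps to a field of characteristic `p`. -/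
theorem exists_residue (p : ℕ) [hp : Fact p.Prime] :
    ∃ (F : Type) (_ : Field F) (_ : CharP F p), Nonempty (integralClosure ℤ ℂ →+* F) := by
  have hnu : ¬ IsUnit (p : integralClosure ℤ ℂ) := by
    intro h
    obtain ⟨u, hu⟩ := h.exists_right_inv
    have h1 : (p : ℂ) * (u : ℂ) = 1 := by
      have := congrArg (fun x : integralClosure ℤ ℂ => (x : ℂ)) hu
      simpa using this
    have h2 : (u : ℂ) = (algebraMap ℚ ℂ) (1 / p : ℚ) := by
      have hp0 : (p : ℂ) ≠ 0 := by exact_mod_cast hp.out.ne_zero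
      simp only [one_div, map_inv₀, map_natCast]
      exact eq_inv_of_mul_eq_one_right h1
    have h3 : IsIntegral ℤ (u : ℂ) := u.2
    rw [h2, isIntegral_algebraMap_iff (algebraMap ℚ ℂ).injective] at h3
    obtain ⟨z, hz⟩ := IsIntegrallyClosed.isIntegral_iff.1 h3
    have h4 : (z : ℚ) * p = 1 := by
      have hp0 : (p : ℚ) ≠ 0 := by exact_mod_cast hp.out.ne_zero
      have hz' : (z : ℚ) = 1 / p := by simpa using hz
      rw [hz']; field_simp
    have h5 : z * p = 1 := by exact_mod_cast h4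
    have h6 : IsUnit (p : ℤ) := IsUnit.of_mul_eq_one z (by rw [mul_comm]; exact h5)
    rw [Int.isUnit_iff] at h6
    have := hp.out.two_le
    omega
  obtain ⟨M, hM, hpM⟩ := exists_max_ideal_of_mem_nonunits hnu
  let _ : Field (integralClosure ℤ ℂ ⧸ M) := Ideal.Quotient.field M
  refine ⟨integralClosure ℤ ℂ ⧸ M, inferInstance, ?_, ⟨Ideal.Quotient.mk M⟩⟩
  have h0 : ((p : ℕ) : integralClosure ℤ ℂ ⧸ M) = 0 := by
    have : (Ideal.Quotient.mk M) (p : integralClosure ℤ ℂ) = 0 := Ideal.Quotient.eq_zero_iff_mem.2 hpM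
    simpa using this
  exact (CharP.charP_iff_prime_eq_zero hp.out).2 h0

theorem isIntegral_of_pow_eq_one {μ : ℂ} {n : ℕ} (hn : 0 < n) (h : μ ^ n = 1) : IsIntegral ℤ μ :=
  IsIntegral.of_pow hn (by rw [h]; exact isIntegral_one)

theorem char_integral {G : Type} [Group G] [Finite G] {V : Type} [AddCommGroup V] [Module ℂ V]
    [FiniteDimensional ℂ V] (ρ : Representation ℂ G V) (g : G) :
    ρ.character g ∈ integralClosure ℤ ℂ := by
  obtain ⟨S, d, h1, h2⟩ := trace_pow_sum (ρ g) (orderOf g) (orderOf_pos g)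
    (by rw [← map_pow, pow_orderOf_eq_one, map_one])
  have h3 : ρ.character g = ∑ μ ∈ S, (d μ : ℂ) * μ ^ 1 := by
    rw [← h2 1, pow_one]; rfl
  rw [h3]
  refine Subalgebra.sum_mem _ fun μ hμ => Subalgebra.mul_mem _ ?_ ?_
  · exact natCast_mem _ _
  · rw [pow_one]; exact isIntegral_of_pow_eq_one (orderOf_pos g) (h1 μ hμ)

/-- character values as algebraic integers -/
noncomputable def chi {G : Type} [Group G] [Finite G] {V : Type} [AddCommGroup V] [Module ℂ V]
    [FiniteDimensional ℂ V] (ρ : Representation ℂ G V) (g : G) : integralClosure ℤ ℂ :=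
  ⟨ρ.character g, char_integral ρ g⟩

/-- Frobenius congruence for character values. -/
theorem chi_pow {G : Type} [Group G] [Finite G] {V : Type} [AddCommGroup V] [Module ℂ V]
    [FiniteDimensional ℂ V] (ρ : Representation ℂ G V) (g : G) (p : ℕ) [hp : Fact p.Prime]
    {F : Type} [Field F] [CharP F p] (φ : integralClosure ℤ ℂ →+* F) (a : ℕ) :
    φ (chi ρ (g ^ p ^ a)) = φ (chi ρ g) ^ p ^ a := by
  classical
  obtain ⟨S, d, h1, h2⟩ := trace_pow_sum (ρ g) (orderOf g) (orderOf_pos g)
    (by rw [← map_pow, pow_orderOf_eq_one, map_one])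
  have hint : ∀ μ ∈ S, IsIntegral ℤ μ := fun μ hμ => isIntegral_of_pow_eq_one (orderOf_pos g) (h1 μ hμ)
  let e : ℂ → integralClosure ℤ ℂ := fun μ => if h : IsIntegral ℤ μ then ⟨μ, h⟩ else 0
  have he : ∀ μ ∈ S, ((e μ : integralClosure ℤ ℂ) : ℂ) = μ := fun μ hμ => by
    simp only [e, dif_pos (hint μ hμ)]
  have hk : ∀ k : ℕ, chi ρ (g ^ k) = ∑ μ ∈ S, (d μ : integralClosure ℤ ℂ) * (e μ) ^ k := by
    intro k
    apply Subtype.ext
    have h3 : ((chi ρ (g ^ k) : integralClosure ℤ ℂ) : ℂ) = LinearMap.trace ℂ V (ρ g ^ k) := by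
      rw [← map_pow]; rfl
    rw [h3, h2 k]
    push_cast
    refine Finset.sum_congr rfl fun μ hμ => ?_
    rw [he μ hμ]
  have h1' := hk 1
  rw [pow_one] at h1'
  rw [hk, h1', map_sum, map_sum, sum_pow_char_pow]
  refine Finset.sum_congr rfl fun μ _ => ?_
  rw [map_mul, map_mul, mul_pow, map_natCast, map_pow, pow_one]
  congr 1
  have := map_natCast (iterateFrobenius F p a) (d μ)
  rw [iterateFrobenius_def] at this
  exact this.symm

end Pool.Agent.H372
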