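import Pool.Agent.H372.ChrBase
import Pool.Graph.R_seed8.Helper199.RepDim

set_option autoImplicit false

namespace Pool.Agent.H372.OddZero

open Pool.Agent.H372 Module
open scoped Pointwise

/-- Sums of a function constant on the orbits of a `p`-group. -/
theorem sum_fixed {P X F : Type} [Group P] [Finite P] [Fintype X] [Field F] (p : ℕ)
    [hp : Fact p.Prime] [CharP F p] (hP : IsPGroup p P) [MulAction P X] (f : X → F)
    (hf : ∀ (g : P) (x : X), f (g • x) = f x) [DecidablePred (fun x : X => ∀ g : P, g • x = x)] :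
    ∑ x : X, f x = ∑ x ∈ Finset.univ.filter (fun x : X => ∀ g : P, g • x = x), f x := by
  classical
  have key : ∀ c : F, (((Finset.univ.filter (fun x : X => f x = c)).card : ℕ) : F) =
      (((Finset.univ.filter (fun x : X => (∀ g : P, g • x = x) ∧ f x = c)).card : ℕ) : F) := by
    intro c
    let Y := {x : X // f x = c}
    let _ : MulAction P Y :=
      { smul := fun g y => ⟨g • y.1, by rw [hf]; exact y.2⟩
        one_smul := fun y => Subtype.ext (one_smul P y.1)
        mul_smul := fun g h y => Subtype.ext (mul_smul g h y.1) }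
    have h1 := hP.card_modEq_card_fixedPoints Y
    have h2 : Nat.card Y = (Finset.univ.filter (fun x : X => f x = c)).card := by
      rw [Nat.card_eq_fintype_card, Fintype.card_subtype]
    have h3 : Nat.card (MulAction.fixedPoints P Y) =
        (Finset.univ.filter (fun x : X => (∀ g : P, g • x = x) ∧ f x = c)).card := by
      rw [← Fintype.card_subtype, ← Nat.card_eq_fintype_card]
      refine Nat.card_congr ⟨fun y => ⟨y.1.1, fun g => congrArg Subtype.val (y.2 g), y.1.2⟩,
        fun y => ⟨⟨y.1, y.2.2⟩, fun g => Subtype.ext (y.2.1 g)⟩, fun _ => rfl, fun _ => rfl⟩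
    rw [h2, h3] at h1
    exact (CharP.natCast_eq_natCast F p).2 h1
  have h4 : ∑ x : X, f x = ∑ c ∈ Finset.univ.image f,
      (((Finset.univ.filter (fun x : X => f x = c)).card : ℕ) : F) * c := by
    rw [← Finset.sum_fiberwise_of_maps_to (g := f) (t := Finset.univ.image f)
      (fun x _ => Finset.mem_image_of_mem f (Finset.mem_univ x))]
    refine Finset.sum_congr rfl fun c _ => ?_
    rw [Finset.sum_congr rfl (g := fun _ => c) (fun x hx => (Finset.mem_filter.1 hx).2),
      Finset.sum_const, nsmul_eq_mul]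
  have h5 : ∑ x ∈ Finset.univ.filter (fun x : X => ∀ g : P, g • x = x), f x =
      ∑ c ∈ Finset.univ.image f,
      (((Finset.univ.filter (fun x : X => (∀ g : P, g • x = x) ∧ f x = c)).card : ℕ) : F) * c := by
    rw [← Finset.sum_fiberwise_of_maps_to (g := f) (t := Finset.univ.image f)
      (fun x _ => Finset.mem_image_of_mem f (Finset.mem_univ x))]
    refine Finset.sum_congr rfl fun c _ => ?_
    rw [Finset.filter_filter, Finset.sum_congr rfl (g := fun _ => c)
      (fun x hx => (Finset.mem_filter.1 hx).2.2), Finset.sum_const, nsmul_eq_mul]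
  rw [h4, h5]
  exact Finset.sum_congr rfl fun c _ => by rw [key c]

variable {G : Type} [Group G] [Finite G] {V : Type} [AddCommGroup V] [Module ℂ V]
  [FiniteDimensional ℂ V] [Nontrivial V]

open Classical in
/-- product of two class sums -/
theorem class_mul [Fintype G] (ρ : Representation ℂ G V)
    (hρ : ∀ W : Submodule ℂ V, (∀ g, ∀ w ∈ W, ρ g w ∈ W) → W ≠ ⊥ → W = ⊤) (x y : G) :
    ((Finset.univ.filter (fun a : G => IsConj x a)).card * ρ.character x) *
      ((Finset.univ.filter (fun a : G => IsConj y a)).card * ρ.character y) =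
    ρ.character 1 * ∑ ab : G × G, if IsConj x ab.1 ∧ IsConj y ab.2 then
      ρ.character (ab.1 * ab.2) else 0 := by
  have hcl : ∀ x : G, ∃ c : ℂ, ∑ a ∈ Finset.univ.filter (fun a : G => IsConj x a), ρ a = c • 1 := by
    intro x
    refine schur_scalar ρ hρ _ fun g => ?_
    rw [Finset.mul_sum, Finset.sum_mul]
    refine Finset.sum_bij' (fun a _ => g * a * g⁻¹) (fun a _ => g⁻¹ * a * g) ?_ ?_ ?_ ?_ ?_
    · intro a ha
      rw [Finset.mem_filter] at ha ⊢
      exact ⟨Finset.mem_univ _, ha.2.trans (isConj_iff.2 ⟨g, rfl⟩)⟩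
    · intro a ha
      rw [Finset.mem_filter] at ha ⊢
      exact ⟨Finset.mem_univ _, ha.2.trans (isConj_iff.2 ⟨g⁻¹, by group⟩)⟩
    · intro a _; group
    · intro a _; group
    · intro a _
      rw [← map_mul, ← map_mul]
      congr 1
      group
  have hconj : ∀ x a : G, IsConj x a → ρ.character a = ρ.character x := by
    intro x a h
    obtain ⟨c, rfl⟩ := isConj_iff.1 h
    exact Representation.char_conj ρ x c
  have htr : ∀ (x : G) (c : ℂ), ∑ a ∈ Finset.univ.filter (fun a : G => IsConj x a), ρ a = c • 1 →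
      (Finset.univ.filter (fun a : G => IsConj x a)).card * ρ.character x = c * ρ.character 1 := by
    intro x c h
    have h1 := congrArg (LinearMap.trace ℂ V) h
    rw [map_sum, map_smul, smul_eq_mul] at h1
    have h2 : ∀ a ∈ Finset.univ.filter (fun a : G => IsConj x a),
        LinearMap.trace ℂ V (ρ a) = ρ.character x := fun a ha =>
      hconj x a (Finset.mem_filter.1 ha).2
    rw [Finset.sum_congr rfl h2, Finset.sum_const, nsmul_eq_mul] at h1
    rw [h1]
    congr 1
    change _ = LinearMap.trace ℂ V (ρ 1)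
    rw [map_one ρ]
  obtain ⟨c, hc⟩ := hcl x
  obtain ⟨d, hd⟩ := hcl y
  rw [htr x c hc, htr y d hd]
  have h3 : ∑ ab : G × G, (if IsConj x ab.1 ∧ IsConj y ab.2 then
      ρ.character (ab.1 * ab.2) else 0) = c * d * ρ.character 1 := by
    have h4 : (∑ a ∈ Finset.univ.filter (fun a : G => IsConj x a), ρ a) *
        (∑ a ∈ Finset.univ.filter (fun a : G => IsConj y a), ρ a) = (c * d) • 1 := by
      rw [hc, hd]
      rw [smul_mul_smul_comm, mul_one]
    rw [Finset.sum_mul_sum, ← Finset.sum_product'] at h4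
    have h5 := congrArg (LinearMap.trace ℂ V) h4
    rw [map_sum, map_smul, smul_eq_mul] at h5
    have h6 : LinearMap.trace ℂ V (1 : Module.End ℂ V) = ρ.character 1 := by
      change _ = LinearMap.trace ℂ V (ρ 1)
      rw [map_one ρ]
    rw [h6] at h5
    rw [← h5, ← Finset.sum_filter]
    refine Finset.sum_congr ?_ ?_
    · ext ⟨a, b⟩
      simp
    · rintro ⟨a, b⟩ _
      change LinearMap.trace ℂ V (ρ (a * b)) = _
      rw [map_mul]
  rw [h3]
  ring

/-- pairs of elements -/
def Pairs (G : Type) : Type := G × G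

noncomputable instance (G : Type) [Fintype G] : Fintype (Pairs G) := inferInstanceAs (Fintype (G × G))

/-- simultaneous conjugation -/
instance act (P : Subgroup G) : MulAction P (Pairs G) where
  smul g ab := ((g : G) * ab.1 * (g : G)⁻¹, (g : G) * ab.2 * (g : G)⁻¹)
  one_smul ab := by
    change (((1 : P) : G) * ab.1 * ((1 : P) : G)⁻¹, ((1 : P) : G) * ab.2 * ((1 : P) : G)⁻¹) = ab
    rw [Subgroup.coe_one, one_mul, one_mul, inv_one, mul_one, mul_one]
    rfl
  mul_smul g h ab := by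
    change (((g * h : P) : G) * ab.1 * ((g * h : P) : G)⁻¹, ((g * h : P) : G) * ab.2 * ((g * h : P) : G)⁻¹) =
      ((g : G) * ((h : G) * ab.1 * (h : G)⁻¹) * (g : G)⁻¹, (g : G) * ((h : G) * ab.2 * (h : G)⁻¹) * (g : G)⁻¹)
    simp [mul_assoc]

/-- an element of `C_G(P)` centralised by `N_G(P)` is not conjugate to another element of
`C_G(P)` -/
theorem fusion {p : ℕ} [Fact p.Prime] (P : Sylow p G) (x a : G)
    (hx : x ∈ Subgroup.centralizer (P : Set G)) (ha : a ∈ Subgroup.centralizer (P : Set G))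
    (hN : ∀ n ∈ Subgroup.normalizer (P : Set G), n * x = x * n) (h : IsConj x a) : a = x := by
  obtain ⟨c, hc⟩ := isConj_iff.1 h
  obtain ⟨n, hn, hn'⟩ := P.conj_eq_normalizer_conj_of_mem_centralizer x c⁻¹ hx
    (by rw [inv_inv, hc]; exact ha)
  rw [inv_inv, hc] at hn'
  rw [hn', mul_assoc, ← hN n hn, ← mul_assoc, inv_mul_cancel, one_mul]

open Classical in
/-- The main congruence. -/
theorem main_congr (p : ℕ) [hp : Fact p.Prime] {F : Type} [Field F] [CharP F p]
    (φ : integralClosure ℤ ℂ →+* F) (ρ : Representation ℂ G V)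
    (hρ : ∀ W : Submodule ℂ V, (∀ g, ∀ w ∈ W, ρ g w ∈ W) → W ≠ ⊥ → W = ⊤)
    (P : Sylow p G) (x : G) (hx : x ∈ Subgroup.centralizer (P : Set G))
    (hN : ∀ n ∈ Subgroup.normalizer (P : Set G), n * x = x * n) :
    ∃ k l : F, k * φ (chi ρ x) * l = φ (chi ρ 1) * φ (chi ρ 1) := by
  have := Fintype.ofFinite G
  set A : ℕ := (Finset.univ.filter (fun a : G => IsConj x a)).card with hA
  set B : ℕ := (Finset.univ.filter (fun a : G => IsConj x⁻¹ a)).card with hB
  let f0 : G × G → integralClosure ℤ ℂ := fun ab =>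
    if IsConj x ab.1 ∧ IsConj x⁻¹ ab.2 then chi ρ (ab.1 * ab.2) else 0
  have h1 : ((A : integralClosure ℤ ℂ) * chi ρ x) * ((B : integralClosure ℤ ℂ) * chi ρ x⁻¹) =
      chi ρ 1 * ∑ ab : G × G, f0 ab := by
    apply Subtype.ext
    have := class_mul ρ hρ x x⁻¹
    push_cast
    rw [← hA, ← hB] at this
    have e1 : ((chi ρ x : integralClosure ℤ ℂ) : ℂ) = ρ.character x := rfl
    have e2 : ((chi ρ x⁻¹ : integralClosure ℤ ℂ) : ℂ) = ρ.character x⁻¹ := rfl
    have e3 : ((chi ρ 1 : integralClosure ℤ ℂ) : ℂ) = ρ.character 1 := rfl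
    rw [e1, e2, e3, this]
    congr 1
    refine Finset.sum_congr rfl fun ab _ => ?_
    simp only [f0]
    split_ifs
    · rfl
    · rfl
  have hsm : ∀ (g : (P : Subgroup G)) (ab : Pairs G), g • ab =
    (((g : G) * ab.1 * (g : G)⁻¹, (g : G) * ab.2 * (g : G)⁻¹) : G × G) := fun _ _ => rfl
  have hchi : ∀ g a : G, chi ρ (g * a * g⁻¹) = chi ρ a := by
    intro g a
    apply Subtype.ext
    exact Representation.char_conj ρ a g
  have hinv : ∀ (g : (P : Subgroup G)) (ab : Pairs G), φ (f0 (g • ab)) = φ (f0 ab) := by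
    intro g ab
    congr 1
    rw [hsm]
    simp only [f0]
    have c1 : ∀ z a : G, IsConj z ((g : G) * a * (g : G)⁻¹) ↔ IsConj z a := by
      intro z a
      constructor
      · intro h; exact h.trans (isConj_iff.2 ⟨(g : G)⁻¹, by group⟩)
      · intro h; exact h.trans (isConj_iff.2 ⟨(g : G), rfl⟩)
    have c2 : (g : G) * ab.1 * (g : G)⁻¹ * ((g : G) * ab.2 * (g : G)⁻¹) =
      (g : G) * (ab.1 * ab.2) * (g : G)⁻¹ := by group
    have c3 := hchi g (ab.1 * ab.2)
    rw [← c2] at c3
    by_cases hh : IsConj x ab.1 ∧ IsConj x⁻¹ ab.2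
    · rw [if_pos hh, if_pos ⟨(c1 _ _).2 hh.1, (c1 _ _).2 hh.2⟩, c3]
    · rw [if_neg hh, if_neg (fun h' => hh ⟨(c1 _ _).1 h'.1, (c1 _ _).1 h'.2⟩)]
  let f1 : Pairs G → F := fun ab => φ (f0 ab)
  have h2 := sum_fixed (P := (P : Subgroup G)) p P.2 f1 hinv
  have h3 : ∑ ab ∈ Finset.univ.filter (fun ab : Pairs G => ∀ g : (P : Subgroup G), g • ab = ab),
      f1 ab = φ (chi ρ 1) := by
    rw [Finset.sum_eq_single (show Pairs G from ((x, x⁻¹) : G × G))]
    · change φ (f0 (x, x⁻¹)) = _
      congr 1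
      simp only [f0]
      rw [if_pos ⟨IsConj.refl x, IsConj.refl x⁻¹⟩, mul_inv_cancel]
    · intro ab hab hne
      have hab := (Finset.mem_filter.1 hab)
      obtain ⟨a, b⟩ := ab
      have ha : a ∈ Subgroup.centralizer (P : Set G) := by
        rw [Subgroup.mem_centralizer_iff]
        intro g hg
        have : g * a * g⁻¹ = a := congrArg Prod.fst (hab.2 ⟨g, hg⟩)
        exact mul_inv_eq_iff_eq_mul.1 this
      have hb : b ∈ Subgroup.centralizer (P : Set G) := by
        rw [Subgroup.mem_centralizer_iff]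
        intro g hg
        have : g * b * g⁻¹ = b := congrArg Prod.snd (hab.2 ⟨g, hg⟩)
        exact mul_inv_eq_iff_eq_mul.1 this
      change φ (f0 (a, b)) = _
      simp only [f0]
      rw [if_neg, map_zero]
      rintro ⟨c1, c2⟩
      apply hne
      have d1 := fusion P x a hx ha hN c1
      have d2 := fusion P x⁻¹ b (Subgroup.inv_mem _ hx) hb (fun n hn => by
        have := hN n hn
        rw [eq_inv_mul_iff_mul_eq, ← mul_assoc, ← this, mul_assoc, mul_inv_cancel, mul_one]) c2
      rw [d1, d2]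
    · intro h
      exfalso
      apply h
      refine Finset.mem_filter.2 ⟨Finset.mem_univ _, fun g => ?_⟩
      rw [hsm]
      have hg := Subgroup.mem_centralizer_iff.1 hx g g.2
      refine Prod.ext ?_ ?_
      · simp only
        rw [hg, mul_inv_cancel_right]
      · have hg' := Subgroup.mem_centralizer_iff.1 (Subgroup.inv_mem _ hx) g g.2
        simp only
        rw [hg', mul_inv_cancel_right]
  refine ⟨A, B * φ (chi ρ x⁻¹), ?_⟩
  have h4 := congrArg φ h1
  rw [map_mul, map_mul, map_mul, map_mul, map_natCast, map_natCast, map_sum] at h4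
  have h5 : ∑ ab : G × G, φ (f0 ab) = φ (chi ρ 1) := h2.trans h3
  rw [h5] at h4
  exact h4

/-- the `p`-regular part -/
theorem exists_pregular (p : ℕ) [hp : Fact p.Prime] (g : G) :
    ∃ (x : G) (a : ℕ) (k : ℕ), x = g ^ k ∧ (orderOf x).Coprime p ∧ g ^ p ^ a = x ^ p ^ a := by
  obtain ⟨a, m, hm, hmo⟩ := Nat.exists_eq_pow_mul_and_not_dvd (orderOf_pos g).ne' p hp.out.ne_one
  have hco : Nat.Coprime (p ^ a) m := Nat.Coprime.pow_left a ((Nat.Prime.coprime_iff_not_dvd hp.out).2 hm)
  obtain ⟨k, hk1, hk2⟩ := Nat.chineseRemainder hco 0 1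
  refine ⟨g ^ k, a, k, rfl, ?_, ?_⟩
  · have h1 : (g ^ k) ^ m = 1 := by
      rw [← pow_mul]
      apply orderOf_dvd_iff_pow_eq_one.1
      rw [hmo]
      exact Nat.mul_dvd_mul ((Nat.modEq_zero_iff_dvd).1 hk1) dvd_rfl
    have h2 : orderOf (g ^ k) ∣ m := orderOf_dvd_of_pow_eq_one h1
    exact Nat.Coprime.coprime_dvd_left h2 ((Nat.Prime.coprime_iff_not_dvd hp.out).2 hm).symm
  · rw [← pow_mul]
    rw [pow_eq_pow_iff_modEq]
    rw [hmo]
    have h3 : p ^ a * 1 ≡ p ^ a * k [MOD p ^ a * m] := Nat.ModEq.mul_left' _ hk2.symm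
    rw [mul_one, mul_comm (p ^ a) k] at h3
    exact h3

theorem main (p : ℕ) [hp : Fact p.Prime] (ρ : Representation ℂ G V)
    (hρ : ∀ W : Submodule ℂ V, (∀ g, ∀ w ∈ W, ρ g w ∈ W) → W ≠ ⊥ → W = ⊤)
    (hdeg : ¬ p ∣ finrank ℂ V) (P : Sylow p G)
    (g : G) (hg : ¬ p ∣ Nat.card {h : G // IsConj g h}) (h0 : ρ.character g = 0) :
    ∃ x ∈ Subgroup.centralizer (P : Set G), (orderOf x).Coprime p ∧ (∃ k : ℕ, IsConj (g ^ k) x) ∧
      ∃ n ∈ Subgroup.normalizer (P : Set G), n * x ≠ x * n := by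
  -- the centraliser of `g` contains a Sylow subgroup
  have h1 : Nat.card {h : G // IsConj g h} = (Subgroup.centralizer {g}).index := by
    have e1 := MulAction.index_stabilizer (ConjAct G) (x := g)
    rw [ConjAct.orbit_eq_carrier_conjClasses] at e1
    have e2 : (Subgroup.centralizer {g}).index = (MulAction.stabilizer (ConjAct G) g).index := by
      rw [ConjAct.stabilizer_eq_centralizer]
      rfl
    rw [e2, e1, ← Nat.card_coe_set_eq]
    refine Nat.card_congr (Equiv.subtypeEquivRight fun h => ?_)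
    rw [ConjClasses.mem_carrier_iff_mk_eq, ConjClasses.mk_eq_mk_iff_isConj]
    exact ⟨IsConj.symm, IsConj.symm⟩
  rw [h1] at hg
  obtain ⟨Q, hQ⟩ : ∃ Q : Sylow p G, (Q : Subgroup G) ≤ Subgroup.centralizer {g} := by
    obtain ⟨R⟩ : Nonempty (Sylow p (Subgroup.centralizer {g} : Subgroup G)) := inferInstance
    have e1 : IsPGroup p ((R : Subgroup _).map (Subgroup.centralizer {g} : Subgroup G).subtype) :=
      R.2.map _
    have e2 : ¬ p ∣ ((R : Subgroup _).map (Subgroup.centralizer {g} : Subgroup G).subtype).index := by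
      rw [Subgroup.index_map_subtype, hp.out.dvd_mul, not_or]
      exact ⟨R.not_dvd_index, hg⟩
    exact ⟨e1.toSylow e2, Subgroup.map_subtype_le _⟩
  obtain ⟨c, hc⟩ := MulAction.exists_smul_eq G Q P
  have hg' : c * g * c⁻¹ ∈ Subgroup.centralizer (P : Set G) := by
    rw [Subgroup.mem_centralizer_iff]
    intro y hy
    rw [← hc] at hy
    have hy2 : c⁻¹ * y * c ∈ Q := by
      have h3 : y ∈ (MulAut.conj c • (Q : Subgroup G) : Subgroup G) := hy
      rw [Subgroup.mem_pointwise_smul_iff_inv_smul_mem, ← map_inv] at h3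
      have h4 : c⁻¹ * y * c ∈ (Q : Subgroup G) := by simpa using h3
      exact h4
    have hy3 := hQ hy2
    rw [Subgroup.mem_centralizer_singleton_iff] at hy3
    have : c * (c⁻¹ * y * c * g) * c⁻¹ = c * (g * (c⁻¹ * y * c)) * c⁻¹ := by rw [hy3]
    calc y * (c * g * c⁻¹) = c * (c⁻¹ * y * c * g) * c⁻¹ := by group
      _ = c * (g * (c⁻¹ * y * c)) * c⁻¹ := this
      _ = c * g * c⁻¹ * y := by group
  rw [← Representation.char_conj ρ g c] at h0
  set g' := c * g * c⁻¹ with hg'def
  obtain ⟨x, a, k, hxk, hxo, hxa⟩ := exists_pregular p g'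
  have hx : x ∈ Subgroup.centralizer (P : Set G) := hxk ▸ Subgroup.pow_mem _ hg' k
  refine ⟨x, hx, hxo, ⟨k, isConj_iff.2 ⟨c, by rw [hxk, hg'def, conj_pow]⟩⟩, ?_⟩
  by_contra hN
  push Not at hN
  obtain ⟨F, _, _, ⟨φ⟩⟩ := exists_residue p
  obtain ⟨u, v, huv⟩ := main_congr p φ ρ hρ P x hx hN
  have h2 : chi ρ g' = 0 := Subtype.ext h0
  have h3 := chi_pow ρ g' p φ a
  have h4 := chi_pow ρ x p φ a
  rw [hxa, h4, h2, map_zero, zero_pow (pow_pos hp.out.pos a).ne'] at h3
  have h5 : φ (chi ρ x) = 0 := pow_eq_zero_iff (pow_pos hp.out.pos a).ne' |>.1 h3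
  rw [h5, mul_zero, zero_mul] at huv
  have h6 : chi ρ 1 = (finrank ℂ V : integralClosure ℤ ℂ) := by
    apply Subtype.ext
    have : ρ.character 1 = (finrank ℂ V : ℂ) := Representation.char_one ρ
    simp [chi]
  have h7 : φ (chi ρ 1) = 0 := mul_self_eq_zero.1 huv.symm
  rw [h6, map_natCast] at h7
  exact hdeg ((CharP.cast_eq_zero_iff F p _).1 h7)

end Pool.Agent.H372.OddZero
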